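import Mathlib
import Pool.Agent.H182R2.LInd.Count
import Pool.Agent.H182R2.LInd.Char

/-!
# MP_53226a_nt: the exponent `1/2` can be replaced by `2/3`

For an embedding `ι` of the algebraic numbers into the algebraic closure of `ℚ_p`, let `N_p(q)` be
the number of odd Dirichlet characters `χ` modulo the prime `q` for which `L(χ,0)` is a `p`-adic
unit. We prove `N_p(q) ≥ q^(2/3) / (8 log q)` for all primes `q` larger than an absolute constant and
all primes `p` not dividing `q (q - 1)`.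
-/

namespace Pool.Agent.Results.MP_53226a_nt.TwoThirds

/-- The field of algebraic numbers. -/
abbrev Qbar := AlgebraicClosure ℚ

/-- `L(χ, 0) = -(1/q) ∑_{0 ≤ a < q} a χ(a)`, for a Dirichlet character `χ` modulo `q` with values
in the algebraic numbers. -/
noncomputable def Lzero (q : ℕ) (χ : DirichletCharacter Qbar q) : Qbar :=
  -((1 / (q : Qbar)) * ∑ a ∈ Finset.range q, (a : Qbar) * χ (a : ZMod q))

/-- `N_p(q)`: the number of odd characters `χ` modulo `q` such that `ι (L(χ,0))` is a `p`-adic unit,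
i.e. has `p`-adic absolute value `1` (`PadicAlgCl p` is the algebraic closure of `ℚ_[p]`, and its
norm is the one extending the `p`-adic norm). -/
noncomputable def N (p q : ℕ) [Fact p.Prime] (ι : Qbar →+* PadicAlgCl p) : ℕ :=
  Nat.card {χ : DirichletCharacter Qbar q // χ.Odd ∧ ‖ι (Lzero q χ)‖ = 1}

theorem norm_natCast_of_not_dvd {p n : ℕ} [hp : Fact p.Prime] (h : ¬ p ∣ n) :
    ‖(n : PadicAlgCl p)‖ = 1 := by
  have h1 : ‖((n : ℚ_[p]) : PadicAlgCl p)‖ = ‖(n : ℚ_[p])‖ := PadicAlgCl.norm_extends p _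
  have h2 : ((n : ℚ_[p]) : PadicAlgCl p) = (n : PadicAlgCl p) :=
    map_natCast (algebraMap ℚ_[p] (PadicAlgCl p)) n
  rw [h2] at h1
  rw [h1, Padic.norm_natCast_eq_one_iff]
  exact (Nat.Prime.coprime_iff_not_dvd hp.out).2 h

/-- There is an absolute constant `q₀` such that for all primes `q ≥ q₀`, all primes `p` with
`p ∤ q` and `p ∤ q - 1`, and all embeddings `ι`, `N_p(q) ≥ q^(2/3) / (8 log q)`. -/
theorem result : ∃ q₀ : ℕ, ∀ (p q : ℕ) [Fact p.Prime], q.Prime → q₀ ≤ q → ¬ p ∣ q → ¬ p ∣ q - 1 →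
    ∀ ι : Qbar →+* PadicAlgCl p,
      (1 / 8 : ℝ) * ((q : ℝ) ^ ((2 : ℝ) / 3) / Real.log q) ≤ (N p q ι : ℝ) := by
  obtain ⟨q₁, hq₁⟩ := H182R2.LInd.card_Bset_ge
  -- `q^(2/3) / log q → ∞`
  have hlarge : ∀ᶠ x : ℝ in Filter.atTop, (40 : ℝ) ≤ x ^ ((2 : ℝ) / 3) / Real.log x := by
    have h1 := (isLittleO_log_rpow_atTop (r := 2 / 3) (by norm_num)).bound
      (show (0 : ℝ) < 1 / 40 by norm_num)
    filter_upwards [h1, Filter.eventually_gt_atTop (1 : ℝ)] with x hx hx1
    have hlog : 0 < Real.log x := Real.log_pos hx1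
    rw [Real.norm_of_nonneg hlog.le, Real.norm_of_nonneg (by positivity)] at hx
    rw [le_div_iff₀ hlog]
    linarith
  rw [Filter.eventually_atTop] at hlarge
  obtain ⟨x₀, hx₀⟩ := hlarge
  refine ⟨max q₁ ⌈x₀⌉₊, ?_⟩
  intro p q hp hq hge hpq hpq1 ι
  have hge1 : q₁ ≤ q := le_trans (le_max_left _ _) hge
  have hge2 : x₀ ≤ (q : ℝ) :=
    le_trans (Nat.le_ceil _) (by exact_mod_cast le_trans (le_max_right _ _) hge)
  have h1 := hq₁ q hge1 hq
  have h2 := hx₀ q hge2
  have h3 := H182R2.LInd.card_Bset_le (K := PadicAlgCl p) ι hq (norm_natCast_of_not_dvd hpq)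
    (norm_natCast_of_not_dvd hpq1)
  have h4 : ((H182R2.LInd.Bset q).card : ℝ) ≤ (N p q ι : ℝ) + 1 := by
    have h5 : (H182R2.LInd.Bset q).card ≤ N p q ι + 1 := h3
    exact_mod_cast h5
  linarith

end Pool.Agent.Results.MP_53226a_nt.TwoThirds
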